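import Pool.Agent.V1158.BL.Minors
import Pool.Agent.TH826.EF.Final
set_option autoImplicit false

/-!
The regulators of all symbols on all tori, asymptotically, for the elliptic fibrations `y + 1/y + z + 1/z = λ ∏_e L_e`.
-/

namespace Pool.Agent.V1158.BL

open Pool.Agent.TH826.MK
open Pool.Agent.TH826.GA
open Pool.Agent.TH826.EF

variable {n m : ℕ}

theorem det_REF_eq (T : Fin (n + 1) → Fin (m + 1)) (S : Fin (n + 2) → Fin (m + 1)) :
    (RE T S).det = (Pool.Agent.V1158.BL.om T S).det := by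
  rw [det_RE, Matrix.det_succ_column_zero, Fin.sum_univ_succ]
  have h2 : ∀ k : Fin (n + 1), Pool.Agent.TH826.DC.RM T S k.succ 0 = 0 := fun k => rfl
  have h3 : Pool.Agent.TH826.DC.RM T S 0 0 = 1 := rfl
  simp only [h2, h3, mul_zero, zero_mul, Finset.sum_const_zero, add_zero, Fin.val_zero,
    pow_zero, mul_one, one_mul]
  congr 1

variable {K : Type*} [Field K] {c : Fin (m + 1) → Fin (n + 1) → K} {a : Fin (m + 1) → K}

/-- all symbols and all tori -/
theorem exists_allEF (σ : K →+* ℂ)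
    (hdet : ∀ T : Fin (n + 1) → Fin (m + 1), Function.Injective T → (cm c T).det ≠ 0)
    (hgen : ∀ S : Fin (n + 2) → Fin (m + 1), Function.Injective S → ∀ x : Fin (n + 1) → K,
      ∃ i, ∑ j, c (S i) j * x j ≠ a (S i)) {ε : ℝ} (hε : 0 < ε) :
    ∃ C : ℝ, 1 < C ∧ ∀ lam : K, C ≤ ‖σ lam‖ →
      ∃ Γ : (Fin (n + 1) ↪o Fin (m + 1)) → Torus (EOpen lam c a) (n + 2),
        (∀ T θ x, (Γ T).e θ (ecst lam c a x) = σ x) ∧
        ∀ (T : Fin (n + 1) ↪o Fin (m + 1)) (S : Fin (n + 2) ↪o Fin (m + 1)),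
          |(Γ T).reg (symb (eent lam c a S)) /
            ((2 * Real.pi) ^ (n + 2) * Real.log ‖σ lam‖) - bd S T| ≤ ε := by
  classical
  choose Λ hΛ1 hΛ using fun T : Fin (n + 1) ↪o Fin (m + 1) =>
    Pool.Agent.TH826.EF.exists_torus (a := a) σ hdet hgen T.injective hε
  set C : ℝ := ∑ T, |Λ T| + 2 with hC
  have hsum : 0 ≤ ∑ T, |Λ T| := Finset.sum_nonneg fun J _ => abs_nonneg _
  have hΛC : ∀ T, Λ T ≤ C := by
    intro T
    have h1 := Finset.single_le_sum (f := fun T => |Λ T|) (fun T _ => abs_nonneg _)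
      (Finset.mem_univ T)
    have h2 := le_abs_self (Λ T)
    have h3 : |Λ T| ≤ ∑ T, |Λ T| := h1
    linarith
  refine ⟨C, by linarith, fun lam hlam => ?_⟩
  choose Γ hΓ1 hΓ2 using fun T => hΛ T lam ((hΛC T).trans hlam)
  refine ⟨Γ, hΓ1, fun T S => ?_⟩
  have h := hΓ2 T S S.injective
  rw [det_REF_eq, det_om] at h
  have hp : 1 ≤ (2 * Real.pi) ^ (n + 2) := by
    apply one_le_pow₀
    have := Real.pi_gt_three
    linarith
  set P : ℝ := (2 * Real.pi) ^ (n + 2) with hP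
  set t : ℝ := Real.log ‖σ lam‖ with ht
  set r : ℝ := (Γ T).reg (symb (eent lam c a S)) with hr
  have hP0 : 0 < P := by linarith
  have h2 : r / (P * t) - bd S T = (r / t - P * bd S T) / P := by
    field_simp
  rw [h2, abs_div, abs_of_pos hP0, div_le_iff₀ hP0]
  refine h.trans ?_
  nlinarith

end Pool.Agent.V1158.BL
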