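import Pool.Agent.V1158.BL.Inc
import Pool.Agent.TH333.CY.Final
set_option autoImplicit false

/-!
The regulators of all symbols on all tori, asymptotically.
-/

namespace Pool.Agent.V1158.BL

open Pool.Agent.TH826.MK
open Pool.Agent.TH826.GA
open Pool.Agent.TH333.CY

variable {s n m : ℕ}

theorem det_RM_eq (T : Fin (n + 1) → Fin (m + 1)) (S : Fin (n + 2) → Fin (m + 1)) :
    (RM s T S).det = (om T S).det := by
  rw [Matrix.det_succ_column_zero, Finset.sum_eq_single 0]
  · rw [RM_zero]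
    have h2 : (RM s T S).submatrix (Fin.succAbove 0) Fin.succ =
        Matrix.reindex finSumFinEquiv finSumFinEquiv
          (Matrix.fromBlocks (1 : Matrix (Fin s) (Fin s) ℝ) 0 0 (om T S)) := by
      ext l i
      rw [Matrix.submatrix_apply, Fin.succAbove_zero, Matrix.reindex_apply, Matrix.submatrix_apply]
      refine Fin.addCases (fun j => ?_) (fun k => ?_) l
      · rw [RM_left, Fin.cons_succ, finSumFinEquiv_symm_apply_castAdd]
        refine Fin.addCases (fun i => ?_) (fun i => ?_) i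
        · rw [wT_inr_left, finSumFinEquiv_symm_apply_castAdd, Matrix.fromBlocks_apply₁₁,
            Matrix.one_apply]
          by_cases h : i = j
          · rw [if_pos h, if_pos h.symm]
          · rw [if_neg h, if_neg (Ne.symm h)]
        · rw [wT_inr_right, finSumFinEquiv_symm_apply_natAdd, Matrix.fromBlocks_apply₁₂]
          rfl
      · rw [RM_right, Fin.cons_succ, finSumFinEquiv_symm_apply_natAdd]
        refine Fin.addCases (fun i => ?_) (fun i => ?_) i
        · rw [wT_inl_left, wT_inl_left, finSumFinEquiv_symm_apply_castAdd,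
            Matrix.fromBlocks_apply₂₁, sub_zero]
          rfl
        · rw [wT_inl_right, wT_inl_right, finSumFinEquiv_symm_apply_natAdd,
            Matrix.fromBlocks_apply₂₂]
          rfl
    rw [h2, Matrix.det_reindex_self, Matrix.det_fromBlocks_zero₁₂, Matrix.det_one]
    simp
  · intro i _ hi
    obtain ⟨k, rfl⟩ := Fin.exists_succ_eq.2 hi
    rw [RM_col]
    ring
  · intro h
    exact absurd (Finset.mem_univ _) h

variable {K : Type*} [Field K] {c : Fin (m + 1) → Fin (n + 1) → K} {a : Fin (m + 1) → K}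

/-- all symbols and all tori -/
theorem exists_all (σ : K →+* ℂ) (κ : Fin (s + 1) → K)
    (hdet : ∀ T : Fin (n + 1) → Fin (m + 1), Function.Injective T → (cm c T).det ≠ 0)
    (hgen : ∀ S : Fin (n + 2) → Fin (m + 1), Function.Injective S → ∀ x : Fin (n + 1) → K,
      ∃ i, ∑ j, c (S i) j * x j ≠ a (S i)) {ε : ℝ} (hε : 0 < ε) :
    ∃ C : ℝ, 1 < C ∧ ∀ lam : K, C ≤ ‖σ lam‖ →
      ∃ Γ : (Fin (n + 1) ↪o Fin (m + 1)) → Torus (YOpen lam κ c a) (s + (n + 1)),
        (∀ T θ x, (Γ T).e θ (ycst lam κ c a x) = σ x) ∧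
        ∀ (T : Fin (n + 1) ↪o Fin (m + 1)) (S : Fin (n + 2) ↪o Fin (m + 1)),
          |(Γ T).reg (symb (yent lam κ c a S)) /
            ((2 * Real.pi) ^ (s + (n + 1)) * Real.log ‖σ lam‖) - bd S T| ≤ ε := by
  classical
  choose Λ hΛ1 hΛ using fun T : Fin (n + 1) ↪o Fin (m + 1) =>
    exists_torus (a := a) σ κ hdet hgen T.injective hε
  set C : ℝ := ∑ T, |Λ T| + 2 with hC
  have hsum : 0 ≤ ∑ T, |Λ T| := Finset.sum_nonneg fun J _ => abs_nonneg _
  have hΛC : ∀ T, Λ T ≤ C := by
    intro T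
    have h1 := Finset.single_le_sum (f := fun T => |Λ T|) (fun T _ => abs_nonneg _)
      (Finset.mem_univ T)
    have h2 := le_abs_self (Λ T)
    have h3 : |Λ T| ≤ ∑ T, |Λ T| := h1
    linarith
  refine ⟨C, by linarith, fun lam hlam => ?_⟩
  choose Γ hΓ1 hΓ2 using fun T => hΛ T lam ((hΛC T).trans hlam)
  refine ⟨Γ, hΓ1, fun T S => ?_⟩
  have h := hΓ2 T S S.injective
  rw [det_RM_eq, det_om] at h
  have hp : 1 ≤ (2 * Real.pi) ^ (s + (n + 1)) := by
    apply one_le_pow₀
    have := Real.pi_gt_three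
    linarith
  set P : ℝ := (2 * Real.pi) ^ (s + (n + 1)) with hP
  set q : ℝ := Real.log ‖σ lam‖ with hq
  set r : ℝ := (Γ T).reg (symb (yent lam κ c a S)) with hr
  have hP0 : 0 < P := by linarith
  have h2 : r / (P * q) - bd S T = (r / q - P * bd S T) / P := by
    field_simp
  rw [h2, abs_div, abs_of_pos hP0, div_le_iff₀ hP0]
  refine h.trans ?_
  nlinarith

open Filter in
/-- families of simplices with independent boundaries stay independent under small perturbations -/
theorem exists_delta : ∃ δ : ℝ, 0 < δ ∧ ∀ f : (Fin (n + 2) ↪o Fin (m + 1)) →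
    (Fin (n + 1) ↪o Fin (m + 1)) → ℝ, (∀ S T, |f S T - bd S T| ≤ δ) →
    ∀ F : Finset (Fin (n + 2) ↪o Fin (m + 1)),
      (LinearIndependent ℝ fun S : F => bd S.1) → LinearIndependent ℝ fun S : F => f S.1 := by
  classical
  have h1 : ∀ F : Finset (Fin (n + 2) ↪o Fin (m + 1)), ∃ δ : ℝ, 0 < δ ∧
      ∀ f : (Fin (n + 2) ↪o Fin (m + 1)) → (Fin (n + 1) ↪o Fin (m + 1)) → ℝ,
        (∀ S T, |f S T - bd S T| ≤ δ) → (LinearIndependent ℝ fun S : F => bd S.1) →
        LinearIndependent ℝ fun S : F => f S.1 := by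
    intro F
    by_cases hF : LinearIndependent ℝ fun S : F => bd (n := n) (m := m) S.1
    · have ho := isOpen_setOfPred_linearIndependent (𝕜 := ℝ) (ι := F)
        (E := (Fin (n + 1) ↪o Fin (m + 1)) → ℝ)
      obtain ⟨δ, hδ, hb⟩ := Metric.isOpen_iff.1 ho _ hF
      refine ⟨δ / 2, by linarith, fun f hf _ => hb ?_⟩
      rw [Metric.mem_ball, dist_pi_lt_iff hδ]
      intro S
      rw [dist_pi_lt_iff hδ]
      intro T
      rw [Real.dist_eq]
      exact (hf S.1 T).trans_lt (by linarith)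
    · exact ⟨1, one_pos, fun f _ h => absurd h hF⟩
  choose δ hδ h using h1
  obtain ⟨F0, -, hF0⟩ := Finset.exists_min_image Finset.univ δ
    ⟨∅, Finset.mem_univ _⟩
  exact ⟨δ F0, hδ F0, fun f hf F hF => h F f (fun S T => (hf S T).trans (hF0 F (Finset.mem_univ F))) hF⟩

end Pool.Agent.V1158.BL
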