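import Mathlib
set_option autoImplicit false

/-!
The simplicial boundary matrix and the determinants of the orders of the entries.
-/

namespace Pool.Agent.V1158.BL

variable {n m : ℕ}

/-- The coefficient of `T` in the boundary of the simplex `S`. -/
noncomputable def bd (S : Fin (n + 2) ↪o Fin (m + 1)) (T : Fin (n + 1) ↪o Fin (m + 1)) : ℝ :=
  ∑ l : Fin (n + 2), if ∀ i, T i = S (l.succAbove i) then (-1) ^ (l : ℕ) else 0

/-- the matrix of the orders -/
noncomputable def om (T : Fin (n + 1) → Fin (m + 1)) (S : Fin (n + 2) → Fin (m + 1)) :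
    Matrix (Fin (n + 1)) (Fin (n + 1)) ℝ :=
  Matrix.of fun k i => (if T i = S k.succ then 1 else 0) - (if T i = S 0 then 1 else 0)

theorem bd_face (S : Fin (n + 2) ↪o Fin (m + 1)) (T : Fin (n + 1) ↪o Fin (m + 1)) (l : Fin (n + 2))
    (h : ∀ i, T i = S (l.succAbove i)) : bd S T = (-1) ^ (l : ℕ) := by
  unfold bd
  rw [Finset.sum_eq_single l]
  · rw [if_pos h]
  · intro l' _ hne
    rw [if_neg]
    intro h'
    apply hne
    have h1 : l'.succAbove = l.succAbove := by
      funext i
      exact S.injective ((h' i).symm.trans (h i))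
    exact Fin.succAbove_left_injective h1
  · intro h
    exact absurd (Finset.mem_univ _) h

theorem bd_not (S : Fin (n + 2) ↪o Fin (m + 1)) (T : Fin (n + 1) ↪o Fin (m + 1))
    (h : ∀ l : Fin (n + 2), ¬ ∀ i, T i = S (l.succAbove i)) : bd S T = 0 := by
  unfold bd
  exact Finset.sum_eq_zero fun l _ => if_neg (h l)

/-- `T` is a face of `S` or has a vertex which is not one of `S` -/
theorem face_or (S : Fin (n + 2) ↪o Fin (m + 1)) (T : Fin (n + 1) ↪o Fin (m + 1)) :
    (∃ l : Fin (n + 2), ∀ i, T i = S (l.succAbove i)) ∨ ∃ i, ∀ k, T i ≠ S k := by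
  by_cases h : ∃ i, ∀ k, T i ≠ S k
  · exact Or.inr h
  · left
    push Not at h
    choose g hg using h
    have hmono : StrictMono g := by
      intro i j hij
      have h1 : T i < T j := T.strictMono hij
      rw [hg i, hg j] at h1
      exact S.lt_iff_lt.1 h1
    have hne : ∃ l, l ∉ Set.range g := by
      by_contra hcon
      push Not at hcon
      have h1 : Function.Surjective g := hcon
      have h2 := Fintype.card_le_of_surjective g h1
      simp at h2
    obtain ⟨l, hl⟩ := hne
    refine ⟨l, fun i => ?_⟩
    have h3 : Set.range g = Set.range l.succAbove := by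
      apply Set.eq_of_subset_of_card_le
      · rw [Fin.range_succAbove]
        intro x hx hxl
        exact hl (hxl ▸ hx)
      · rw [Set.card_range_of_injective hmono.injective,
          Set.card_range_of_injective l.succAbove_right_injective]
    have h4 : g = l.succAbove :=
      (hmono.range_inj (Fin.strictMono_succAbove l)).1 h3
    rw [hg i, h4]

/-- the matrix of the boundary with one more row -/
noncomputable def big (r : Fin (n + 2) → ℝ) : Matrix (Fin (n + 2)) (Fin (n + 2)) ℝ :=
  Matrix.of (Fin.cons r fun k : Fin (n + 1) => fun j =>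
    (if j = k.succ then 1 else 0) - (if j = 0 then 1 else 0))

theorem det_big (r : Fin (n + 2) → ℝ) : (big r).det = ∑ j, r j := by
  set P : Matrix (Fin (n + 2)) (Fin (n + 2)) ℝ :=
    Matrix.of fun j i => if i = 0 then 1 else if j = i then 1 else 0 with hP
  have hPdet : P.det = 1 := by
    rw [Matrix.det_succ_row_zero, Finset.sum_eq_single 0]
    · have h1 : P.submatrix Fin.succ (Fin.succAbove 0) = 1 := by
        ext j i
        rw [Matrix.submatrix_apply, Fin.succAbove_zero, Matrix.one_apply, hP, Matrix.of_apply,
          if_neg (Fin.succ_ne_zero _)]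
        by_cases h : j = i
        · rw [if_pos h, if_pos (by rw [h])]
        · rw [if_neg h, if_neg fun h' => h (Fin.succ_injective _ h')]
      rw [h1, Matrix.det_one]
      simp [hP]
    · intro i _ hi
      have : P 0 i = 0 := by
        rw [hP, Matrix.of_apply, if_neg hi, if_neg (Ne.symm hi)]
      rw [this]
      ring
    · intro h
      exact absurd (Finset.mem_univ _) h
  have h1 : (big r * P).det = (big r).det := by
    rw [Matrix.det_mul, hPdet, mul_one]
  rw [← h1, Matrix.det_succ_column_zero, Finset.sum_eq_single 0]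
  · have h2 : (big r * P) 0 0 = ∑ j, r j := by
      rw [Matrix.mul_apply]
      refine Finset.sum_congr rfl fun j _ => ?_
      rw [hP, Matrix.of_apply, if_pos rfl, mul_one]
      rfl
    have h3 : (big r * P).submatrix (Fin.succAbove 0) Fin.succ = 1 := by
      ext k i
      rw [Matrix.submatrix_apply, Fin.succAbove_zero, Matrix.one_apply, Matrix.mul_apply]
      have e : ∀ j, big r k.succ j * P j i.succ =
          if j = i.succ then (if j = k.succ then 1 else 0) else 0 := by
        intro j
        rw [hP, Matrix.of_apply, if_neg (Fin.succ_ne_zero i)]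
        have e2 : big r k.succ j = (if j = k.succ then 1 else 0) - (if j = 0 then 1 else 0) := rfl
        rw [e2]
        by_cases h : j = i.succ
        · rw [if_pos h, if_pos h, mul_one, h, if_neg (Fin.succ_ne_zero i), sub_zero]
        · rw [if_neg h, if_neg h, mul_zero]
      rw [Finset.sum_congr rfl fun j _ => e j, Finset.sum_ite_eq']
      simp only [Finset.mem_univ, if_true]
      by_cases h : k = i
      · rw [if_pos h, if_pos (by rw [h])]
      · rw [if_neg h, if_neg fun h' => h (Fin.succ_injective _ h').symm]
    rw [h2, h3, Matrix.det_one]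
    simp
  · intro i _ hi
    obtain ⟨k, rfl⟩ := Fin.exists_succ_eq.2 hi
    have h4 : (big r * P) k.succ 0 = 0 := by
      rw [Matrix.mul_apply]
      have e : ∀ j, big r k.succ j * P j 0 =
          (if j = k.succ then 1 else 0) - (if j = 0 then 1 else 0) := by
        intro j
        rw [hP, Matrix.of_apply, if_pos rfl, mul_one]
        rfl
      rw [Finset.sum_congr rfl fun j _ => e j, Finset.sum_sub_distrib, Finset.sum_ite_eq',
        Finset.sum_ite_eq']
      simp
    rw [h4]
    ring
  · intro h
    exact absurd (Finset.mem_univ _) h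

theorem det_om (S : Fin (n + 2) ↪o Fin (m + 1)) (T : Fin (n + 1) ↪o Fin (m + 1)) :
    (om T S).det = bd S T := by
  rcases face_or S T with ⟨l, hl⟩ | ⟨i, hi⟩
  · rw [bd_face S T l hl]
    have h1 := det_big (n := n) (fun j => if j = l then 1 else 0)
    rw [Finset.sum_ite_eq'] at h1
    simp only [Finset.mem_univ, if_true] at h1
    rw [Matrix.det_succ_row_zero, Finset.sum_eq_single l] at h1
    · have h2 : big (n := n) (fun j => if j = l then 1 else 0) 0 l = 1 := by
        show (if l = l then (1 : ℝ) else 0) = 1
        rw [if_pos rfl]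
      have h3 : (big (n := n) (fun j => if j = l then 1 else 0)).submatrix Fin.succ l.succAbove =
          om T S := by
        ext k i
        rw [Matrix.submatrix_apply]
        unfold om
        rw [Matrix.of_apply, hl i]
        show (if l.succAbove i = k.succ then (1 : ℝ) else 0) - (if l.succAbove i = 0 then 1 else 0) = _
        simp only [S.injective.eq_iff]
      rw [h2, h3, mul_one] at h1
      have h4 : ((-1 : ℝ) ^ (l : ℕ)) * ((-1 : ℝ) ^ (l : ℕ)) = 1 := by
        rw [← mul_pow]
        norm_num
      calc (om T S).det = ((-1 : ℝ) ^ (l : ℕ) * (-1 : ℝ) ^ (l : ℕ)) * (om T S).det := by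
            rw [h4, one_mul]
        _ = (-1 : ℝ) ^ (l : ℕ) * ((-1 : ℝ) ^ (l : ℕ) * (om T S).det) := by ring
        _ = _ := by rw [h1, mul_one]
    · intro j _ hj
      have : big (n := n) (fun j => if j = l then 1 else 0) 0 j = 0 := by
        show (if j = l then (1 : ℝ) else 0) = 0
        rw [if_neg hj]
      rw [this]
      ring
    · intro h
      exact absurd (Finset.mem_univ _) h
  · rw [bd_not S T fun l hl => hi (l.succAbove i) (hl i)]
    refine Matrix.det_eq_zero_of_column_eq_zero i fun k => ?_
    unfold om
    rw [Matrix.of_apply, if_neg (hi _), if_neg (hi _), sub_zero]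

/-- the boundaries of the simplices with the vertex `0` -/
theorem indep_zero : LinearIndependent ℝ fun S : {S : Fin (n + 2) ↪o Fin (m + 1) // S 0 = 0} =>
    bd S.1 := by
  classical
  rw [Fintype.linearIndependent_iff]
  intro g hg S0
  set T0 : Fin (n + 1) ↪o Fin (m + 1) := (Fin.succOrderEmb (n + 1)).trans S0.1 with hT0
  have h1 := congrFun hg T0
  rw [Finset.sum_apply, Finset.sum_eq_single S0] at h1
  · rw [Pi.smul_apply, smul_eq_mul, bd_face S0.1 T0 0 (fun i => by
      rw [Fin.succAbove_zero]; rfl)] at h1
    simpa using h1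
  · intro S _ hS
    rw [Pi.smul_apply, smul_eq_mul, bd_not, mul_zero]
    intro l hl
    apply hS
    have hl0 : l = 0 := by
      by_contra hne
      have h2 := hl 0
      rw [Fin.succAbove_ne_zero_zero hne, S.2] at h2
      have h3 : S0.1 (Fin.succ 0) = 0 := h2
      have h4 : S0.1 0 < S0.1 (Fin.succ 0) := S0.1.strictMono (Fin.succ_pos 0)
      rw [h3, S0.2] at h4
      exact lt_irrefl _ h4
    subst hl0
    apply Subtype.ext
    ext j
    refine Fin.cases ?_ (fun j => ?_) j
    · rw [S.2, S0.2]
    · have h5 := hl j
      rw [Fin.succAbove_zero] at h5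
      have h6 : T0 j = S0.1 j.succ := rfl
      rw [← h5, h6]
  · intro h
    exact absurd (Finset.mem_univ _) h

end Pool.Agent.V1158.BL
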