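import Pool.Agent.V1158.BL.Inc
set_option autoImplicit false

/-!
Minors of matrices close to the simplicial boundary matrix.
-/

namespace Pool.Agent.V1158.BL

variable {n m : ℕ}

/-- The minor of the boundary matrix: the columns are the boundaries of the `S j`, the rows belong
to the `T i`. -/
noncomputable def minor {r : ℕ} (S : Fin r ↪ (Fin (n + 2) ↪o Fin (m + 1)))
    (T : Fin r ↪ (Fin (n + 1) ↪o Fin (m + 1))) : ℝ :=
  (Matrix.of fun i j => bd (S j) (T i)).det

theorem det_close {I : Type} [Fintype I] [DecidableEq I] (A : Matrix I I ℝ) {ε : ℝ}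
    (hε : 0 < ε) : ∃ δ : ℝ, 0 < δ ∧ ∀ M : Matrix I I ℝ, (∀ i j, |M i j - A i j| < δ) →
      |M.det - A.det| < ε := by
  have hc : Continuous fun M : I → I → ℝ => (Matrix.of M).det :=
    Continuous.matrix_det continuous_id
  obtain ⟨δ, hδ, h⟩ := Metric.continuous_iff.1 hc (fun i j => A i j) ε hε
  refine ⟨δ, hδ, fun M hM => ?_⟩
  have h2 : dist (fun i j => M i j) (fun i j => A i j) < δ := by
    rw [dist_pi_lt_iff hδ]
    intro i
    rw [dist_pi_lt_iff hδ]
    intro j
    rw [Real.dist_eq]
    exact hM i j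
  have h3 := h _ h2
  rw [Real.dist_eq] at h3
  exact h3

/-- all minors are close -/
theorem exists_delta_minor {ε : ℝ} (hε : 0 < ε) :
    ∃ δ : ℝ, 0 < δ ∧ ∀ f : (Fin (n + 2) ↪o Fin (m + 1)) → (Fin (n + 1) ↪o Fin (m + 1)) → ℝ,
      (∀ S T, |f S T - bd S T| ≤ δ) →
      ∀ (r : ℕ) (S : Fin r ↪ (Fin (n + 2) ↪o Fin (m + 1)))
        (T : Fin r ↪ (Fin (n + 1) ↪o Fin (m + 1))),
        |(Matrix.of fun i j => f (S j) (T i)).det - minor S T| < ε ∧
          (minor S T ≠ 0 → (Matrix.of fun i j => f (S j) (T i)).det ≠ 0) := by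
  classical
  set N : ℕ := Fintype.card (Fin (n + 2) ↪o Fin (m + 1)) with hN
  have h1 : ∀ x : (Σ r : Fin (N + 1), (Fin r ↪ (Fin (n + 2) ↪o Fin (m + 1))) ×
      (Fin r ↪ (Fin (n + 1) ↪o Fin (m + 1)))), ∃ δ : ℝ, 0 < δ ∧
      ∀ f : (Fin (n + 2) ↪o Fin (m + 1)) → (Fin (n + 1) ↪o Fin (m + 1)) → ℝ,
      (∀ S T, |f S T - bd S T| ≤ δ) →
        |(Matrix.of fun i j => f (x.2.1 j) (x.2.2 i)).det - minor x.2.1 x.2.2| < ε ∧
          (minor x.2.1 x.2.2 ≠ 0 → (Matrix.of fun i j => f (x.2.1 j) (x.2.2 i)).det ≠ 0) := by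
    rintro ⟨r, S, T⟩
    set e : ℝ := if minor S T = 0 then ε else min ε |minor S T| with he
    have he0 : 0 < e := by
      rw [he]
      split_ifs with h
      · exact hε
      · exact lt_min hε (abs_pos.2 h)
    obtain ⟨δ, hδ, h⟩ := det_close (Matrix.of fun i j => bd (S j) (T i)) he0
    refine ⟨δ / 2, by linarith, fun f hf => ?_⟩
    have h2 := h (Matrix.of fun i j => f (S j) (T i)) fun i j => by
      rw [Matrix.of_apply, Matrix.of_apply]
      exact (hf (S j) (T i)).trans_lt (by linarith)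
    have h3 : |(Matrix.of fun i j => f (S j) (T i)).det - minor S T| < e := h2
    constructor
    · refine h3.trans_le ?_
      rw [he]
      split_ifs
      · exact le_rfl
      · exact min_le_left _ _
    · intro h4 h5
      rw [he, if_neg h4] at h3
      have h6 : |(Matrix.of fun i j => f (S j) (T i)).det - minor S T| < |minor S T| :=
        h3.trans_le (min_le_right _ _)
      have h5' : (Matrix.of fun i j => f (S j) (T i)).det = 0 := h5
      rw [h5', zero_sub, abs_neg] at h6
      exact lt_irrefl _ h6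
  choose δ hδ h using h1
  obtain ⟨x0, -, hx0⟩ := Finset.exists_min_image Finset.univ δ
    ⟨⟨0, (⟨fun i => i.elim0, fun i => i.elim0⟩, ⟨fun i => i.elim0, fun i => i.elim0⟩)⟩,
      Finset.mem_univ _⟩
  refine ⟨δ x0, hδ x0, fun f hf r S T => ?_⟩
  have hr : r < N + 1 := by
    have h2 := Fintype.card_le_of_embedding S
    rw [Fintype.card_fin] at h2
    omega
  exact h ⟨⟨r, hr⟩, S, T⟩ f fun S T => (hf S T).trans (hx0 _ (Finset.mem_univ _))

/-- a set of simplices with linearly independent boundaries has a nonzero minor -/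
theorem exists_minor {r : ℕ} (S : Fin r ↪ (Fin (n + 2) ↪o Fin (m + 1)))
    (h : LinearIndependent ℝ fun j => bd (S j)) :
    ∃ T : Fin r ↪ (Fin (n + 1) ↪o Fin (m + 1)), minor S T ≠ 0 := by
  classical
  -- the matrix with the columns `bd (S j)`
  set A : Matrix (Fin r) (Fin (n + 1) ↪o Fin (m + 1)) ℝ := Matrix.of fun j => bd (S j) with hA
  have h1 : A.rank = r := by
    have := LinearIndependent.rank_matrix (M := A) h
    rwa [Fintype.card_fin] at this
  -- the columns of `A` span, so a basis can be chosen among them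
  have h2 : Submodule.span ℝ (Set.range A.col) = ⊤ := by
    apply Submodule.eq_top_of_finrank_eq
    rw [← Matrix.rank_eq_finrank_span_cols, h1, Module.finrank_fin_fun]
  obtain ⟨b, hb1, hb2, hb3⟩ := exists_linearIndependent ℝ (Set.range A.col)
  rw [h2] at hb2
  have hbf : b.Finite := Set.Finite.subset (Set.finite_range _) hb1
  have := hbf.fintype
  have hcard : Fintype.card b = r := by
    have h3 := finrank_span_eq_card (R := ℝ) hb3
    rw [Subtype.range_coe, hb2, finrank_top, Module.finrank_fin_fun] at h3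
    exact h3.symm
  let e : Fin r ≃ b := (Fintype.equivFinOfCardEq hcard).symm
  choose g hg using fun v : b => hb1 v.2
  have hginj : Function.Injective fun i => g (e i) := by
    intro i j hij
    have h4 : (e i : Fin r → ℝ) = e j := by
      rw [← hg (e i), ← hg (e j)]
      exact congrArg A.col hij
    exact e.injective (Subtype.ext h4)
  refine ⟨⟨fun i => g (e i), hginj⟩, ?_⟩
  unfold minor
  have h5 : LinearIndependent ℝ fun i => (e i : Fin r → ℝ) := hb3.comp _ e.injective
  have h6 : (Matrix.of fun i j => bd (S j) (g (e i))) = Matrix.of fun i => (e i : Fin r → ℝ) := by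
    ext i j
    rw [Matrix.of_apply, Matrix.of_apply, ← hg (e i)]
    rfl
  show (Matrix.of fun i j => bd (S j) (g (e i))).det ≠ 0
  rw [h6]
  have h7 : LinearIndependent ℝ (Matrix.of fun i => (e i : Fin r → ℝ)).row := h5
  have h8 := Matrix.linearIndependent_rows_iff_isUnit.1 h7
  exact ((Matrix.isUnit_iff_isUnit_det _).1 h8).ne_zero

end Pool.Agent.V1158.BL
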